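import Mathlib
import Pool.Agent.H24R3.EulRec

set_option autoImplicit false

/-!
Signed insertion of the largest value: the sign of `Ph (p, τ)`.
-/

namespace Pool.Agent.R848.SD

open Pool.Agent.H24R3.Eul Equiv Finset

theorem Ph_trans {n : ℕ} (p : Fin (n + 2)) (τ : Equiv.Perm (Fin (n + 1))) :
    Ph (p, τ) = Ph (Fin.last (n + 1), τ) * Ph (p, 1) := by
  apply Equiv.ext
  intro i
  rw [Equiv.Perm.mul_apply]
  rcases Fin.eq_self_or_eq_succAbove p i with h | ⟨j, h⟩
  · subst h
    rw [Ph_self, Ph_self, Ph_self]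
  · subst h
    rw [Ph_succAbove, Ph_succAbove, Equiv.Perm.one_apply]
    have h1 : (j.castSucc : Fin (n + 2)) = (Fin.last (n + 1)).succAbove j := by
      rw [Fin.succAbove_last]
    rw [h1, Ph_succAbove]

theorem sign_Ph_last {n : ℕ} (τ : Equiv.Perm (Fin (n + 1))) :
    Equiv.Perm.sign (Ph (Fin.last (n + 1), τ)) = Equiv.Perm.sign τ := by
  unfold Ph
  rw [← Equiv.trans_assoc]
  rw [Equiv.Perm.sign_trans_trans_symm, Equiv.optionCongr_sign]

theorem sign_Ph_step {n : ℕ} (q : Fin (n + 1)) :
    Equiv.Perm.sign (Ph (q.castSucc, (1 : Equiv.Perm (Fin (n + 1))))) =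
      - Equiv.Perm.sign (Ph (q.succ, (1 : Equiv.Perm (Fin (n + 1))))) := by
  have h : Ph (q.castSucc, (1 : Equiv.Perm (Fin (n + 1)))) =
      Ph (q.succ, 1) * Equiv.swap q.castSucc q.succ := by
    apply Equiv.ext
    intro i
    rw [Equiv.Perm.mul_apply]
    rcases Fin.eq_self_or_eq_succAbove q.castSucc i with h | ⟨j, h⟩
    · subst h
      rw [Ph_self, Equiv.swap_apply_left, Ph_self]
    · subst h
      rw [Ph_succAbove, Equiv.Perm.one_apply]
      by_cases hj : j = q
      · subst hj
        rw [Fin.succAbove_castSucc_self, Equiv.swap_apply_right]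
        have h1 : (j.castSucc : Fin (n + 2)) = (j.succ).succAbove j := by
          rw [Fin.succAbove_succ_self]
        conv_rhs => rw [h1]
        rw [Ph_succAbove, Equiv.Perm.one_apply]
      · have h2 : q.castSucc.succAbove j = q.succ.succAbove j := by
          rcases lt_or_gt_of_ne hj with h | h
          · rw [Fin.succAbove_castSucc_of_lt _ _ h, Fin.succAbove_succ_of_le _ _ h.le]
          · rw [Fin.succAbove_castSucc_of_le _ _ h.le, Fin.succAbove_succ_of_lt _ _ h]
        have h3 : q.castSucc.succAbove j ≠ q.castSucc := Fin.succAbove_ne _ _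
        have h4 : q.castSucc.succAbove j ≠ q.succ := by
          rw [h2]; exact Fin.succAbove_ne _ _
        rw [Equiv.swap_apply_of_ne_of_ne h3 h4, h2, Ph_succAbove, Equiv.Perm.one_apply]
  rw [h, Equiv.Perm.sign_mul, Equiv.Perm.sign_swap (by
    intro h; rw [Fin.ext_iff] at h; simp at h)]
  simp

theorem sign_Ph_one {n : ℕ} (m : ℕ) (hm : m ≤ n + 1) (p : Fin (n + 2)) (hp : p.val + m = n + 1) :
    (Equiv.Perm.sign (Ph (p, (1 : Equiv.Perm (Fin (n + 1))))) : ℤ) = (-1) ^ m := by
  induction m generalizing p with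
  | zero =>
    have : p = Fin.last (n + 1) := Fin.ext (by simpa using hp)
    rw [this, sign_Ph_last]
    simp
  | succ m ih =>
    have hq : p.val < n + 1 := by omega
    have h1 : p = (⟨p.val, hq⟩ : Fin (n + 1)).castSucc := Fin.ext (by simp)
    rw [h1, sign_Ph_step]
    rw [Units.val_neg, ih (by omega) _ (by simp; omega)]
    ring

/-- the sign after the insertion of the largest value at the place `p` -/
theorem sign_Ph {n : ℕ} (p : Fin (n + 2)) (τ : Equiv.Perm (Fin (n + 1))) :
    (Equiv.Perm.sign (Ph (p, τ)) : ℤ) = (-1) ^ (n + 1 + p.val) * (Equiv.Perm.sign τ : ℤ) := by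
  rw [Ph_trans, Equiv.Perm.sign_mul, Units.val_mul, sign_Ph_last,
    sign_Ph_one (n + 1 - p.val) (by omega) p (by omega), mul_comm]
  congr 1
  have h : n + 1 + p.val = (n + 1 - p.val) + 2 * p.val := by omega
  rw [h, pow_add, pow_mul]
  simp

end Pool.Agent.R848.SD
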