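import Mathlib
import Pool.Agent.H24R3.EulRec
import Pool.Agent.R848.SD.Sign

set_option autoImplicit false

/-!
The recurrence of the signed Eulerian numbers from `n + 1` to `n + 3` letters.
-/

namespace Pool.Agent.R848.SD

open Pool.Agent.H24R3.Eul Equiv Finset

/-- signed Eulerian number of `n + 1` letters -/
def D (n k : ℕ) : ℤ :=
  ∑ σ : Equiv.Perm (Fin (n + 1)), (Equiv.Perm.sign σ : ℤ) * (if des σ = k then 1 else 0)

/-- the increase of the number of descents of `f` on `0, ..., n` when a large value is put in at `q` -/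
def ee (f : ℕ → ℕ) (n q : ℕ) : ℕ := if q = n + 1 then 0 else if 1 ≤ q ∧ f q < f (q - 1) then 0 else 1

theorem vf_lt {n : ℕ} (τ : Equiv.Perm (Fin (n + 1))) (i : ℕ) (hi : i ≤ n) : vf τ i < n + 1 := by
  have := vf_val τ ⟨i, by omega⟩
  simp only at this
  rw [this]
  exact (τ ⟨i, by omega⟩).2

theorem des_ee {n : ℕ} (q : Fin (n + 2)) (τ : Equiv.Perm (Fin (n + 1))) :
    des (Ph (q, τ)) = des τ + ee (vf τ) n q.val := by
  have hM : ∀ i ≤ n, vf τ i < n + 1 := fun i hi => vf_lt τ i hi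
  rw [des_Ph]
  unfold ee
  by_cases h : q.val = n + 1
  · rw [if_pos h, h, ins_last _ _ _ hM, des_dn]
    rfl
  · have h2 : q.val ≤ n := by omega
    have h3 := ins_mid (vf τ) (n + 1) q.val n h2 hM
    rw [← des_dn] at h3
    rw [if_neg h]
    by_cases h4 : 1 ≤ q.val ∧ vf τ q.val < vf τ (q.val - 1)
    · rw [if_pos h4] at h3 ⊢
      omega
    · rw [if_neg h4] at h3 ⊢
      omega

theorem ee_lt {n : ℕ} (p : Fin (n + 2)) (τ : Equiv.Perm (Fin (n + 1))) (q : ℕ) (hq : q < p.val) :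
    ee (vf (Ph (p, τ))) (n + 1) q = ee (vf τ) n q := by
  have hp := p.2
  unfold ee
  rw [if_neg (by omega : ¬ q = n + 1 + 1), if_neg (by omega : ¬ q = n + 1),
    vf_Ph p τ q (by omega), vf_Ph p τ (q - 1) (by omega),
    ins_lt _ _ _ _ hq, ins_lt _ _ _ _ (by omega : q - 1 < p.val)]

theorem ee_eq {n : ℕ} (p : Fin (n + 2)) (τ : Equiv.Perm (Fin (n + 1))) :
    ee (vf (Ph (p, τ))) (n + 1) p.val = 1 := by
  have hp := p.2
  unfold ee
  rw [if_neg (by omega), if_neg]
  rintro ⟨h1, h2⟩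
  rw [vf_Ph p τ _ (by omega), vf_Ph p τ (p.val - 1) (by omega), ins_eq,
    ins_lt _ _ _ _ (by omega : p.val - 1 < p.val)] at h2
  have := vf_lt τ (p.val - 1) (by omega)
  omega

theorem ee_succ {n : ℕ} (p : Fin (n + 2)) (τ : Equiv.Perm (Fin (n + 1))) :
    ee (vf (Ph (p, τ))) (n + 1) (p.val + 1) = 0 := by
  have hp := p.2
  unfold ee
  by_cases h : p.val + 1 = n + 1 + 1
  · rw [if_pos h]
  · rw [if_neg h, if_pos]
    refine ⟨by omega, ?_⟩
    have h1 : p.val + 1 - 1 = p.val := by omega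
    rw [h1, vf_Ph p τ _ (by omega), vf_Ph p τ p.val (by omega), ins_eq, ins_gt _ _ _ _ le_rfl]
    exact vf_lt τ _ (by omega)

theorem ee_gt {n : ℕ} (p : Fin (n + 2)) (τ : Equiv.Perm (Fin (n + 1))) (q : ℕ) (hq : p.val < q)
    (hq2 : q ≤ n + 1) : ee (vf (Ph (p, τ))) (n + 1) (q + 1) = ee (vf τ) n q := by
  have hp := p.2
  unfold ee
  by_cases h : q = n + 1
  · rw [if_pos (by omega), if_pos h]
  · rw [if_neg (by omega), if_neg h]
    obtain ⟨r, rfl⟩ : ∃ r, q = r + 1 := ⟨q - 1, by omega⟩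
    have h1 : r + 1 + 1 - 1 = r + 1 := by omega
    have h2 : r + 1 - 1 = r := by omega
    rw [h1, h2, vf_Ph p τ _ (by omega), vf_Ph p τ (r + 1) (by omega),
      ins_gt _ _ _ _ (by omega : p.val ≤ r + 1), ins_gt _ _ _ _ (by omega : p.val ≤ r)]
    simp

/-- symmetric double sums over the two triangles agree -/
theorem tri (N : ℕ) (G : ℕ → ℕ → ℤ) (hG : ∀ a b, G a b = G b a) :
    ∑ p ∈ range N, ∑ b ∈ Ico (p + 1) N, G p b = ∑ p ∈ range N, ∑ b ∈ range p, G p b := by
  rw [Finset.sum_comm' (s' := fun b => range b) (t' := range N)]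
  · apply Finset.sum_congr rfl
    intro b _
    apply Finset.sum_congr rfl
    intro p _
    exact hG _ _
  · intro x y
    simp only [mem_range, mem_Ico]
    omega

/-- the double insertion: everything cancels but the adjacent insertions -/
theorem double (N : ℕ) (ε : ℕ → ℕ) (E2 : ℕ → ℕ → ℕ) (w : ℕ → ℤ)
    (h1 : ∀ p < N, ∀ q < p, E2 p q = ε q) (h2 : ∀ p < N, E2 p p = 1)
    (h3 : ∀ p < N, E2 p (p + 1) = 0) (h4 : ∀ p < N, ∀ q < N, p < q → E2 p (q + 1) = ε q) :
    ∑ p ∈ range N, ∑ q ∈ range (N + 1), (-1 : ℤ) ^ (p + q + 1) * w (ε p + E2 p q) =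
      ∑ p ∈ range N, (w (ε p) - w (ε p + 1)) := by
  have key : ∀ p ∈ range N, ∑ q ∈ range (N + 1), (-1 : ℤ) ^ (p + q + 1) * w (ε p + E2 p q) =
      - (∑ q ∈ range p, (-1 : ℤ) ^ (p + q) * w (ε p + ε q)) + (w (ε p) - w (ε p + 1)) +
        ∑ q ∈ Ico (p + 1) N, (-1 : ℤ) ^ (p + q) * w (ε p + ε q) := by
    intro p hp
    rw [mem_range] at hp
    rw [Finset.range_eq_Ico, ← Finset.sum_Ico_consecutive _ (Nat.zero_le p) (by omega : p ≤ N + 1),
      ← Finset.sum_Ico_consecutive _ (by omega : p ≤ p + 2) (by omega : p + 2 ≤ N + 1)]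
    have e1 : ∑ q ∈ Ico 0 p, (-1 : ℤ) ^ (p + q + 1) * w (ε p + E2 p q) =
        - (∑ q ∈ Ico 0 p, (-1 : ℤ) ^ (p + q) * w (ε p + ε q)) := by
      rw [← Finset.sum_neg_distrib]
      apply Finset.sum_congr rfl
      intro q hq
      rw [mem_Ico] at hq
      rw [h1 p hp q hq.2]
      ring
    have e2 : ∑ q ∈ Ico p (p + 2), (-1 : ℤ) ^ (p + q + 1) * w (ε p + E2 p q) =
        w (ε p) - w (ε p + 1) := by
      rw [Finset.sum_Ico_succ_top (by omega : p ≤ p + 1), Finset.sum_Ico_succ_top (by omega : p ≤ p),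
        Finset.Ico_self, Finset.sum_empty, h2 p hp, h3 p hp]
      have a1 : (-1 : ℤ) ^ (p + p + 1) = -1 := by
        rw [pow_succ, ← two_mul, pow_mul]; simp
      have a2 : (-1 : ℤ) ^ (p + (p + 1) + 1) = 1 := by
        have : p + (p + 1) + 1 = 2 * (p + 1) := by ring
        rw [this, pow_mul]; simp
      rw [a1, a2]
      simp only [add_zero]
      ring
    have e3 : ∑ q ∈ Ico (p + 2) (N + 1), (-1 : ℤ) ^ (p + q + 1) * w (ε p + E2 p q) =
        ∑ q ∈ Ico (p + 1) N, (-1 : ℤ) ^ (p + q) * w (ε p + ε q) := by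
      rw [← Finset.sum_Ico_add' (fun q => (-1 : ℤ) ^ (p + q + 1) * w (ε p + E2 p q)) (p + 1) N 1]
      apply Finset.sum_congr rfl
      intro q hq
      rw [mem_Ico] at hq
      rw [h4 p hp q hq.2 (by omega)]
      have : (-1 : ℤ) ^ (p + (q + 1) + 1) = (-1) ^ (p + q) := by
        have : p + (q + 1) + 1 = (p + q) + 2 := by ring
        rw [this, pow_add]; simp
      rw [this]
    rw [e1, e2, e3, Finset.range_eq_Ico]
    ring
  rw [Finset.sum_congr rfl key, Finset.sum_add_distrib, Finset.sum_add_distrib,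
    Finset.sum_neg_distrib]
  rw [tri N (fun p q => (-1 : ℤ) ^ (p + q) * w (ε p + ε q)) (by
    intro a b
    rw [add_comm a b, add_comm (ε a) (ε b)])]
  ring

/-- the signed count after two insertions -/
theorem count2 {n : ℕ} (τ : Equiv.Perm (Fin (n + 1))) (m : ℕ) :
    ∑ p : Fin (n + 2), ∑ q : Fin (n + 3), (Equiv.Perm.sign (Ph (q, Ph (p, τ))) : ℤ) *
      (if des (Ph (q, Ph (p, τ))) = m then 1 else 0) =
    (Equiv.Perm.sign τ : ℤ) * ∑ p : Fin (n + 2), ((if des (Ph (p, τ)) = m then 1 else 0) -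
      (if des (Ph (p, τ)) + 1 = m then 1 else 0)) := by
  have h := double (n + 2) (fun p => ee (vf τ) n p)
    (fun p q => if hp : p < n + 2 then ee (vf (Ph (⟨p, hp⟩, τ))) (n + 1) q else 0)
    (fun c => if des τ + c = m then 1 else 0)
    (by
      intro p hp q hq
      simp only [dif_pos hp]
      exact ee_lt ⟨p, hp⟩ τ q hq)
    (by
      intro p hp
      simp only [dif_pos hp]
      exact ee_eq ⟨p, hp⟩ τ)
    (by
      intro p hp
      simp only [dif_pos hp]
      exact ee_succ ⟨p, hp⟩ τ)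
    (by
      intro p hp q hq hpq
      simp only [dif_pos hp]
      exact ee_gt ⟨p, hp⟩ τ q hpq (by omega))
  rw [Finset.sum_range, Finset.sum_range] at h
  have h5 : ∑ p : Fin (n + 2), ((if des (Ph (p, τ)) = m then (1 : ℤ) else 0) -
      (if des (Ph (p, τ)) + 1 = m then 1 else 0)) =
      ∑ i : Fin (n + 2), ((if des τ + ee (vf τ) n i.val = m then (1 : ℤ) else 0) -
        if des τ + (ee (vf τ) n i.val + 1) = m then 1 else 0) := by
    apply Finset.sum_congr rfl
    intro p _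
    rw [des_ee p τ, ← add_assoc]
  rw [h5, ← h, Finset.mul_sum]
  apply Finset.sum_congr rfl
  intro p _
  rw [Finset.sum_range, Finset.mul_sum]
  apply Finset.sum_congr rfl
  intro q _
  rw [sign_Ph, sign_Ph, des_ee q, des_ee p]
  simp only [dif_pos p.2, Fin.eta]
  have h6 : (-1 : ℤ) ^ (n + 1 + 1 + q.val) * ((-1) ^ (n + 1 + p.val) * (Equiv.Perm.sign τ : ℤ)) =
      (Equiv.Perm.sign τ : ℤ) * (-1) ^ (p.val + q.val + 1) := by
    rw [← mul_assoc, ← pow_add]
    have : n + 1 + 1 + q.val + (n + 1 + p.val) = 2 * (n + 1) + (p.val + q.val + 1) := by ring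
    rw [this, pow_add, pow_mul]
    simp
    ring
  rw [h6, add_assoc (des τ), mul_assoc]

/-- the Eulerian operator on the signed Eulerian numbers -/
def T (n m : ℕ) : ℤ :=
  ∑ τ : Equiv.Perm (Fin (n + 1)), (Equiv.Perm.sign τ : ℤ) *
    ((1 + (des τ : ℤ)) * (if des τ = m then 1 else 0) +
        ((n : ℤ) + 1 - des τ) * (if des τ + 1 = m then 1 else 0))

theorem T_zero (n : ℕ) : T n 0 = D n 0 := by
  unfold T D
  apply Finset.sum_congr rfl
  intro τ _
  by_cases h : des τ = 0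
  · rw [h]; simp
  · rw [if_neg h, if_neg (by omega)]; ring

theorem T_succ (n m : ℕ) : T n (m + 1) = ((m : ℤ) + 2) * D n (m + 1) + ((n : ℤ) + 1 - m) * D n m := by
  unfold T D
  rw [Finset.mul_sum, Finset.mul_sum, ← Finset.sum_add_distrib]
  apply Finset.sum_congr rfl
  intro τ _
  by_cases h : des τ = m + 1
  · rw [h]
    simp
    ring
  · by_cases h2 : des τ = m
    · rw [h2]
      simp
      ring
    · rw [if_neg h, if_neg (by omega), if_neg h2]
      ring

theorem D_eq (n m : ℕ) : D (n + 2) m = ∑ τ : Equiv.Perm (Fin (n + 1)),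
    ∑ p : Fin (n + 2), ∑ q : Fin (n + 3), (Equiv.Perm.sign (Ph (q, Ph (p, τ))) : ℤ) *
      (if des (Ph (q, Ph (p, τ))) = m then 1 else 0) := by
  unfold D
  rw [← Function.Bijective.sum_comp (Ph_bij (n := n + 1))
    (fun σ => (Equiv.Perm.sign σ : ℤ) * (if des σ = m then (1 : ℤ) else 0)),
    Fintype.sum_prod_type_right,
    ← Function.Bijective.sum_comp (Ph_bij (n := n)), Fintype.sum_prod_type_right]

theorem D_rec_zero (n : ℕ) : D (n + 2) 0 = D n 0 := by
  rw [D_eq, ← T_zero]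
  unfold T
  apply Finset.sum_congr rfl
  intro τ _
  rw [count2, ← count_p τ 0]
  congr 1
  rw [Finset.sum_sub_distrib, Finset.card_filter]
  push_cast
  simp

theorem D_rec_succ (n m : ℕ) : D (n + 2) (m + 1) = T n (m + 1) - T n m := by
  rw [D_eq]
  unfold T
  rw [← Finset.sum_sub_distrib]
  apply Finset.sum_congr rfl
  intro τ _
  rw [count2, ← count_p τ (m + 1), ← count_p τ m, ← mul_sub]
  congr 1
  rw [Finset.sum_sub_distrib, Finset.card_filter, Finset.card_filter]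
  push_cast
  simp

theorem D_rec_one (n : ℕ) : D (n + 2) 1 = 2 * D n 1 + (n : ℤ) * D n 0 := by
  rw [D_rec_succ, T_succ, T_zero]
  push_cast
  ring

theorem D_rec (n m : ℕ) : D (n + 2) (m + 2) = ((m : ℤ) + 3) * D n (m + 2) +
    ((n : ℤ) - 2 * m - 2) * D n (m + 1) - ((n : ℤ) + 1 - m) * D n m := by
  rw [D_rec_succ, T_succ, T_succ]
  push_cast
  ring

theorem D_le (n k : ℕ) : |D n k| ≤ E n k := by
  unfold D
  rw [E_sum]
  refine (Finset.abs_sum_le_sum_abs _ _).trans ?_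
  apply Finset.sum_le_sum
  intro τ _
  rw [abs_mul]
  rcases Int.units_eq_one_or (Equiv.Perm.sign τ) with h | h <;> rw [h] <;> split_ifs <;> simp

theorem D_big (n k : ℕ) (h : n < k) : D n k = 0 := by
  have h1 := D_le n k
  rw [E_big n k h] at h1
  exact abs_eq_zero.mp (le_antisymm h1 (abs_nonneg _))

end Pool.Agent.R848.SD
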