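import Mathlib
import Pool.Agent.H24R3.EulRec

set_option autoImplicit false

/-!
Ultra-log-concavity of the Eulerian numbers, by induction.
-/

namespace Pool.Agent.R848.SD

open Pool.Agent.H24R3.Eul Equiv Finset

theorem E_zero (n : ℕ) : E n 0 = 1 := by
  induction n with
  | zero => exact E_zero_zero
  | succ n ih => rw [E_succ_zero, ih]

theorem E_pos (n k : ℕ) (h : k ≤ n) : 1 ≤ E n k := by
  induction n generalizing k with
  | zero =>
    have : k = 0 := by omega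
    subst this
    rw [E_zero_zero]
  | succ n ih =>
    cases k with
    | zero => rw [E_zero]
    | succ k =>
      rw [E_rec n k (by omega)]
      have h1 := ih k (by omega)
      have h2 := E_nonneg n (k + 1)
      have h3 : (k : ℤ) ≤ n := by exact_mod_cast (by omega : k ≤ n)
      have h4 : (k : ℤ) ≥ 0 := by positivity
      nlinarith [mul_nonneg (by linarith : (0:ℤ) ≤ (k : ℤ) + 2) h2,
        mul_nonneg (by linarith : (0:ℤ) ≤ (n : ℤ) - k) (by linarith : (0:ℤ) ≤ E n k)]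

/-- Eulerian number divided by the binomial coefficient -/
noncomputable def e (n k : ℕ) : ℚ := (E n k : ℚ) / (n.choose k : ℚ)

theorem e_nonneg (n k : ℕ) : 0 ≤ e n k := by
  unfold e
  have := E_nonneg n k
  have h : (0 : ℚ) ≤ (E n k : ℚ) := by exact_mod_cast this
  positivity

theorem e_pos (n k : ℕ) (h : k ≤ n) : 0 < e n k := by
  unfold e
  have h1 := E_pos n k h
  have h2 : (0 : ℚ) < (E n k : ℚ) := by exact_mod_cast (by linarith : 0 < E n k)
  have h3 : (0 : ℚ) < (n.choose k : ℚ) := by exact_mod_cast Nat.choose_pos h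
  positivity

theorem e_big (n k : ℕ) (h : n < k) : e n k = 0 := by
  unfold e
  rw [E_big n k h]
  simp

theorem E_e (n k : ℕ) : (E n k : ℚ) = (n.choose k : ℚ) * e n k := by
  unfold e
  by_cases h : k ≤ n
  · have h3 : (n.choose k : ℚ) ≠ 0 := by exact_mod_cast (Nat.choose_pos h).ne'
    field_simp
  · rw [E_big n k (by omega)]
    simp

theorem e_zero (n : ℕ) : e n 0 = 1 := by
  unfold e
  rw [E_zero]
  simp

theorem e_rec (n k : ℕ) (hk : k ≤ n) : ((n : ℚ) + 1) * e (n + 1) (k + 1) =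
    ((k : ℚ) + 2) * ((n : ℚ) - k) * e n (k + 1) + ((k : ℚ) + 1) * ((n : ℚ) + 1 - k) * e n k := by
  have h1 := E_rec n k hk
  have h2 : (E (n + 1) (k + 1) : ℚ) = ((k : ℚ) + 2) * E n (k + 1) + ((n : ℚ) + 1 - k) * E n k := by
    exact_mod_cast h1
  rw [E_e, E_e, E_e] at h2
  have hc : (0 : ℚ) < ((n + 1).choose (k + 1) : ℚ) := by
    exact_mod_cast Nat.choose_pos (by omega)
  -- (n+1) C(n,k) = C(n+1,k+1) (k+1)
  have c1 : ((n : ℚ) + 1) * (n.choose k : ℚ) = ((n + 1).choose (k + 1) : ℚ) * ((k : ℚ) + 1) := by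
    exact_mod_cast Nat.add_one_mul_choose_eq n k
  -- (n+1) C(n,k+1) = C(n+1,k+1) (n-k)
  have c2 : ((n : ℚ) + 1) * (n.choose (k + 1) : ℚ) =
      ((n + 1).choose (k + 1) : ℚ) * ((n : ℚ) - k) := by
    have h3 : ((n + 1).choose (k + 1) : ℚ) = (n.choose k : ℚ) + (n.choose (k + 1) : ℚ) := by
      exact_mod_cast Nat.choose_succ_succ n k
    have : ((n : ℚ) + 1) * (n.choose (k + 1) : ℚ) = ((n : ℚ) + 1) * ((n + 1).choose (k + 1) : ℚ) -
        ((n : ℚ) + 1) * (n.choose k : ℚ) := by rw [h3]; ring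
    rw [this, c1]
    ring
  have h4 : ((n + 1).choose (k + 1) : ℚ) * (((n : ℚ) + 1) * e (n + 1) (k + 1)) =
      ((n + 1).choose (k + 1) : ℚ) * (((k : ℚ) + 2) * ((n : ℚ) - k) * e n (k + 1) +
        ((k : ℚ) + 1) * ((n : ℚ) + 1 - k) * e n k) := by
    calc ((n + 1).choose (k + 1) : ℚ) * (((n : ℚ) + 1) * e (n + 1) (k + 1))
        = ((n : ℚ) + 1) * (((n + 1).choose (k + 1) : ℚ) * e (n + 1) (k + 1)) := by ring
      _ = ((k : ℚ) + 2) * (((n : ℚ) + 1) * (n.choose (k + 1) : ℚ)) * e n (k + 1) +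
          ((n : ℚ) + 1 - k) * (((n : ℚ) + 1) * (n.choose k : ℚ)) * e n k := by rw [h2]; ring
      _ = _ := by rw [c1, c2]; ring
  exact mul_left_cancel₀ hc.ne' h4

/-- the algebraic step -/
theorem lc_step (a b c d A B C X : ℚ) (ha : 0 ≤ a) (hb : 0 ≤ b) (hc : 0 ≤ c) (hd : 0 ≤ d)
    (hA : 0 ≤ A) (hB : 0 ≤ B) (hC : 0 ≤ C) (hX : 0 ≤ X)
    (h1 : a * c ≤ b ^ 2) (h2 : b * d ≤ c ^ 2) (h3 : a * d ≤ b * c)
    (k1 : A * C ≤ B ^ 2) (k2 : B * X ≤ C ^ 2) (k3 : A * X ≤ B * C) :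
    (B * b + A * a) * (X * d + C * c) ≤ (C * c + B * b) ^ 2 := by
  have m1 : (B * X) * (b * d) ≤ C ^ 2 * c ^ 2 := by
    apply mul_le_mul k2 h2 (by positivity) (by positivity)
  have m2 : (A * C) * (a * c) ≤ B ^ 2 * b ^ 2 := by
    apply mul_le_mul k1 h1 (by positivity) (by positivity)
  have m3 : (A * X) * (a * d) ≤ (B * C) * (b * c) := by
    apply mul_le_mul k3 h3 (by positivity) (by positivity)
  nlinarith [m1, m2, m3]

theorem lc3 (a b c d : ℚ) (ha : 0 ≤ a) (hb : 0 < b) (hc : 0 < c) (hd : 0 ≤ d)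
    (h1 : a * c ≤ b ^ 2) (h2 : b * d ≤ c ^ 2) : a * d ≤ b * c := by
  have : (a * c) * (b * d) ≤ b ^ 2 * c ^ 2 := mul_le_mul h1 h2 (by positivity) (by positivity)
  have h : (b * c) * (a * d) ≤ (b * c) * (b * c) := by nlinarith
  exact le_of_mul_le_mul_left h (by positivity)

theorem e_lc (n : ℕ) : ∀ k, e n k * e n (k + 2) ≤ e n (k + 1) ^ 2 := by
  induction n with
  | zero =>
    intro k
    rw [e_big 0 (k + 2) (by omega), mul_zero]
    positivity
  | succ n ih =>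
    intro k
    by_cases hk : k + 2 ≤ n + 1
    · have hn : (0 : ℚ) < ((n : ℚ) + 1) ^ 2 := by positivity
      have hkn : (k : ℚ) + 1 ≤ n := by exact_mod_cast (by omega : k + 1 ≤ n)
      have hk0 : (0 : ℚ) ≤ k := by positivity
      apply le_of_mul_le_mul_left _ hn
      have r1 := e_rec n k (by omega)
      have r2 := e_rec n (k + 1) (by omega)
      push_cast at r2
      cases k with
      | zero =>
        rw [e_zero]
        have r1' := r1
        rw [e_zero] at r1'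
        simp only [Nat.cast_zero, zero_add, sub_zero] at r1' r2 hkn
        have h0 := ih 0
        rw [e_zero] at h0
        simp only [zero_add] at h0
        have p1 := e_nonneg n 1
        have p2 := e_nonneg n 2
        have key := lc_step 0 1 (e n 1) (e n 2) 0 ((n : ℚ) + 1) (2 * n) (3 * ((n : ℚ) - 1)) le_rfl
          (by norm_num) p1 p2 le_rfl (by linarith) (by linarith) (by linarith) (by norm_num)
          (by linarith) (by linarith) (by nlinarith) (by nlinarith) (by nlinarith)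
        have t1 : ((n : ℚ) + 1) * e (n + 1) (0 + 1) = 2 * n * e n 1 + ((n : ℚ) + 1) * 1 := by
          rw [r1']; ring
        have t2 : ((n : ℚ) + 1) * e (n + 1) (0 + 2) = 3 * ((n : ℚ) - 1) * e n 2 + 2 * n * e n 1 := by
          rw [r2]; ring
        calc ((n : ℚ) + 1) ^ 2 * (1 * e (n + 1) (0 + 2))
            = ((n : ℚ) + 1) * (((n : ℚ) + 1) * e (n + 1) (0 + 2)) := by ring
          _ = (((n : ℚ) + 1) * 1 + 0 * 0) * (3 * ((n : ℚ) - 1) * e n 2 + 2 * n * e n 1) := by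
              rw [t2]; ring
          _ ≤ _ := key
          _ = (((n : ℚ) + 1) * e (n + 1) (0 + 1)) ^ 2 := by rw [t1]
          _ = _ := by ring
      | succ j =>
        have r0 := e_rec n j (by omega)
        push_cast at r0 r1 r2 hkn hk0
        have hj : (0 : ℚ) ≤ j := by positivity
        have p0 := e_pos n j (by omega)
        have p1 := e_pos n (j + 1) (by omega)
        have p2 := e_pos n (j + 2) (by omega)
        have p3 := e_nonneg n (j + 3)
        have q1 := ih j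
        have q2 := ih (j + 1)
        have q2' : e n (j + 1) * e n (j + 3) ≤ e n (j + 2) ^ 2 := q2
        have q3 := lc3 _ _ _ _ p0.le p1 p2 p3 q1 q2'
        have hnj : (0 : ℚ) ≤ (n : ℚ) - j - 2 := by linarith
        have key := lc_step (e n j) (e n (j + 1)) (e n (j + 2)) (e n (j + 3))
          (((j : ℚ) + 1) * ((n : ℚ) + 1 - j)) (((j : ℚ) + 2) * ((n : ℚ) - j))
          (((j : ℚ) + 3) * ((n : ℚ) - j - 1)) (((j : ℚ) + 4) * ((n : ℚ) - j - 2))
          p0.le p1.le p2.le p3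
          (mul_nonneg (by linarith) (by linarith)) (mul_nonneg (by linarith) (by linarith))
          (mul_nonneg (by linarith) (by linarith)) (mul_nonneg (by linarith) (by linarith))
          q1 q2' q3
          (by
            obtain ⟨x, hx⟩ : ∃ x : ℚ, x = (n : ℚ) - j - 2 := ⟨_, rfl⟩
            have hn' : (n : ℚ) = x + j + 2 := by linarith
            rw [hn']
            have hx0 : 0 ≤ x := by rw [hx]; exact hnj
            ring_nf
            nlinarith [mul_nonneg hj hx0, mul_nonneg hj hj, mul_nonneg hx0 hx0, mul_nonneg (mul_nonneg hj hj) hx0, mul_nonneg (mul_nonneg hx0 hx0) hj, mul_nonneg (mul_nonneg hj hx0) (mul_nonneg hj hx0)])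
          (by
            obtain ⟨x, hx⟩ : ∃ x : ℚ, x = (n : ℚ) - j - 2 := ⟨_, rfl⟩
            have hn' : (n : ℚ) = x + j + 2 := by linarith
            rw [hn']
            have hx0 : 0 ≤ x := by rw [hx]; exact hnj
            ring_nf
            nlinarith [mul_nonneg hj hx0, mul_nonneg hj hj, mul_nonneg hx0 hx0, mul_nonneg (mul_nonneg hj hj) hx0, mul_nonneg (mul_nonneg hx0 hx0) hj, mul_nonneg (mul_nonneg hj hx0) (mul_nonneg hj hx0)])
          (by
            obtain ⟨x, hx⟩ : ∃ x : ℚ, x = (n : ℚ) - j - 2 := ⟨_, rfl⟩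
            have hn' : (n : ℚ) = x + j + 2 := by linarith
            rw [hn']
            have hx0 : 0 ≤ x := by rw [hx]; exact hnj
            ring_nf
            nlinarith [mul_nonneg hj hx0, mul_nonneg hj hj, mul_nonneg hx0 hx0, mul_nonneg (mul_nonneg hj hj) hx0, mul_nonneg (mul_nonneg hx0 hx0) hj, mul_nonneg (mul_nonneg hj hx0) (mul_nonneg hj hx0)])
        have t0 : ((n : ℚ) + 1) * e (n + 1) (j + 1) = ((j : ℚ) + 2) * ((n : ℚ) - j) * e n (j + 1) +
            ((j : ℚ) + 1) * ((n : ℚ) + 1 - j) * e n j := r0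
        have t1 : ((n : ℚ) + 1) * e (n + 1) (j + 1 + 1) = ((j : ℚ) + 3) * ((n : ℚ) - j - 1) * e n (j + 2) +
            ((j : ℚ) + 2) * ((n : ℚ) - j) * e n (j + 1) := by rw [r1]; ring
        have t2 : ((n : ℚ) + 1) * e (n + 1) (j + 1 + 2) = ((j : ℚ) + 4) * ((n : ℚ) - j - 2) * e n (j + 3) +
            ((j : ℚ) + 3) * ((n : ℚ) - j - 1) * e n (j + 2) := by
          have : j + 1 + 2 = j + 1 + 1 + 1 := by ring
          rw [this, r2]; ring
        calc ((n : ℚ) + 1) ^ 2 * (e (n + 1) (j + 1) * e (n + 1) (j + 1 + 2))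
            = (((n : ℚ) + 1) * e (n + 1) (j + 1)) * (((n : ℚ) + 1) * e (n + 1) (j + 1 + 2)) := by ring
          _ = _ := by rw [t0, t2]
          _ ≤ _ := key
          _ = (((n : ℚ) + 1) * e (n + 1) (j + 1 + 1)) ^ 2 := by rw [t1]
          _ = _ := by ring
    · rw [e_big (n + 1) (k + 2) (by omega), mul_zero]
      positivity

/-- ultra-log-concavity of the Eulerian numbers -/
theorem E_ulc (n k : ℕ) (h : k + 2 ≤ n) :
    ((k : ℚ) + 2) * ((n : ℚ) - k) * ((E n k : ℚ) * E n (k + 2)) ≤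
      ((k : ℚ) + 1) * ((n : ℚ) - k - 1) * (E n (k + 1) : ℚ) ^ 2 := by
  have h1 := e_lc n k
  rw [E_e, E_e, E_e]
  have hkn : (k : ℚ) + 2 ≤ n := by exact_mod_cast h
  have hk0 : (0 : ℚ) ≤ k := by positivity
  -- C(n,k+1) (k+1) = C(n,k) (n-k)
  have c1 : (n.choose (k + 1) : ℚ) * ((k : ℚ) + 1) = (n.choose k : ℚ) * ((n : ℚ) - k) := by
    have := Nat.choose_succ_right_eq n k
    have h2 : (((n - k : ℕ)) : ℚ) = (n : ℚ) - k := by rw [Nat.cast_sub (by omega)]
    rw [← h2]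
    exact_mod_cast this
  have c2 : (n.choose (k + 2) : ℚ) * ((k : ℚ) + 2) = (n.choose (k + 1) : ℚ) * ((n : ℚ) - k - 1) := by
    have := Nat.choose_succ_right_eq n (k + 1)
    have h2 : (((n - (k + 1) : ℕ)) : ℚ) = (n : ℚ) - k - 1 := by
      rw [Nat.cast_sub (by omega)]; push_cast; ring
    rw [← h2]
    have h3 : ((k : ℚ) + 2) = ((k + 1 + 1 : ℕ) : ℚ) := by push_cast; ring
    rw [h3]
    exact_mod_cast this
  have hc0 : (0 : ℚ) ≤ (n.choose (k + 1) : ℚ) := by positivity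
  calc ((k : ℚ) + 2) * ((n : ℚ) - k) *
        (((n.choose k : ℚ) * e n k) * ((n.choose (k + 2) : ℚ) * e n (k + 2)))
      = ((n.choose k : ℚ) * ((n : ℚ) - k)) * ((n.choose (k + 2) : ℚ) * ((k : ℚ) + 2)) *
        (e n k * e n (k + 2)) := by ring
    _ = ((n.choose (k + 1) : ℚ) * ((k : ℚ) + 1)) * ((n.choose (k + 1) : ℚ) * ((n : ℚ) - k - 1)) *
        (e n k * e n (k + 2)) := by rw [c1, c2]
    _ ≤ ((n.choose (k + 1) : ℚ) * ((k : ℚ) + 1)) * ((n.choose (k + 1) : ℚ) * ((n : ℚ) - k - 1)) *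
        (e n (k + 1) ^ 2) := by
        apply mul_le_mul_of_nonneg_left h1
        apply mul_nonneg (by positivity)
        apply mul_nonneg hc0
        linarith
    _ = _ := by ring

/-- the quantitative log-concavity in the form that is needed -/
theorem E_strong (n k : ℕ) (h : k + 2 ≤ n) :
    ((n : ℤ) + 2) ^ 2 * (E n k * E n (k + 2)) ≤ (n : ℤ) ^ 2 * (E n (k + 1)) ^ 2 := by
  have h1 := E_ulc n k h
  have hkn : (k : ℚ) + 2 ≤ n := by exact_mod_cast h
  have hk0 : (0 : ℚ) ≤ k := by positivity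
  have hE : (0 : ℚ) ≤ (E n (k + 1) : ℚ) ^ 2 := by positivity
  have hP : (0 : ℚ) ≤ (E n k : ℚ) * E n (k + 2) := by
    have := mul_nonneg (E_nonneg n k) (E_nonneg n (k + 2))
    exact_mod_cast this
  have h2 : ((n : ℚ) + 2) ^ 2 * ((E n k : ℚ) * E n (k + 2)) ≤ (n : ℚ) ^ 2 * (E n (k + 1) : ℚ) ^ 2 := by
    have hpos : (0 : ℚ) < ((k : ℚ) + 1) * ((n : ℚ) - k - 1) :=
      mul_pos (by linarith) (by linarith)
    apply le_of_mul_le_mul_left _ hpos
    have h3 : ((k : ℚ) + 1) * ((n : ℚ) - k - 1) * ((n : ℚ) + 2) ^ 2 ≤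
        (n : ℚ) ^ 2 * (((k : ℚ) + 2) * ((n : ℚ) - k)) := by
      have : (n : ℚ) ^ 2 * (((k : ℚ) + 2) * ((n : ℚ) - k)) -
          ((k : ℚ) + 1) * ((n : ℚ) - k - 1) * ((n : ℚ) + 2) ^ 2 =
          ((n : ℚ) + 1) * ((n : ℚ) - 2 * (k + 1)) ^ 2 := by ring
      have h4 : (0 : ℚ) ≤ ((n : ℚ) + 1) * ((n : ℚ) - 2 * (k + 1)) ^ 2 := by positivity
      linarith
    calc ((k : ℚ) + 1) * ((n : ℚ) - k - 1) * (((n : ℚ) + 2) ^ 2 * ((E n k : ℚ) * E n (k + 2)))
        = (((k : ℚ) + 1) * ((n : ℚ) - k - 1) * ((n : ℚ) + 2) ^ 2) * ((E n k : ℚ) * E n (k + 2)) := by ring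
      _ ≤ ((n : ℚ) ^ 2 * (((k : ℚ) + 2) * ((n : ℚ) - k))) * ((E n k : ℚ) * E n (k + 2)) :=
          mul_le_mul_of_nonneg_right h3 hP
      _ = (n : ℚ) ^ 2 * ((((k : ℚ) + 2) * ((n : ℚ) - k)) * ((E n k : ℚ) * E n (k + 2))) := by ring
      _ ≤ (n : ℚ) ^ 2 * (((k : ℚ) + 1) * ((n : ℚ) - k - 1) * (E n (k + 1) : ℚ) ^ 2) :=
          mul_le_mul_of_nonneg_left h1 (by positivity)
      _ = _ := by ring
  exact_mod_cast h2

end Pool.Agent.R848.SD
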