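import Mathlib
import Pool.Agent.H24R3.EulRec
import Pool.Agent.R848.SD.Rec
import Pool.Agent.R848.SD.Ulc

set_option autoImplicit false

/-!
The bound `(n + 1) |D n k| ≤ E n k` and strong synchronisation.
-/

namespace Pool.Agent.R848.SD

open Pool.Agent.H24R3.Eul Equiv Finset

theorem E_top (n : ℕ) : E n n = 1 := by
  induction n with
  | zero => exact E_zero_zero
  | succ n ih =>
    rw [E_rec n n le_rfl, E_big n (n + 1) (by omega), ih]
    ring

/-- two steps of the recurrence -/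
theorem E_rec2 (n k : ℕ) (hk : k ≤ n) : E (n + 2) (k + 2) = ((k : ℤ) + 3) ^ 2 * E n (k + 2) +
    (((k : ℤ) + 3) * ((n : ℤ) - k) + ((n : ℤ) + 1 - k) * ((k : ℤ) + 2)) * E n (k + 1) +
    ((n : ℤ) + 1 - k) ^ 2 * E n k := by
  have h1 := E_rec (n + 1) (k + 1) (by omega)
  have h2 := E_rec n k hk
  have h3 : E (n + 1) (k + 2) = ((k : ℤ) + 3) * E n (k + 2) + ((n : ℤ) - k) * E n (k + 1) := by
    by_cases h : k + 1 ≤ n
    · have := E_rec n (k + 1) h
      push_cast at this
      rw [this]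
      ring
    · have hkn : k = n := by omega
      subst hkn
      rw [E_big _ _ (by omega), E_big _ _ (by omega)]
      ring
  have e1 : k + 1 + 1 = k + 2 := rfl
  rw [e1] at h1
  rw [h1, h3, h2]
  push_cast
  ring

theorem E_rec2_one (n : ℕ) : E (n + 2) 1 = 4 * E n 1 + 3 * n + 4 := by
  have h1 := E_rec (n + 1) 0 (by omega)
  have h2 := E_rec n 0 (by omega)
  rw [E_zero] at h1 h2
  simp only [zero_add] at h1 h2
  rw [h1, h2]
  push_cast
  ring

/-! ### Small values -/

theorem E_one_one : E 1 1 = 1 := E_top 1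

theorem E1 (k : ℕ) : E (k + 2) 1 = 2 * E (k + 1) 1 + (k + 2) := by
  have := E_rec (k + 1) 0 (by omega)
  rw [E_zero] at this
  simp only [zero_add] at this
  rw [this]
  push_cast
  ring

theorem E_2_1 : E 2 1 = 4 := by
  have := E1 0
  rw [E_one_one] at this
  simpa using this

theorem E_3_1 : E 3 1 = 11 := by
  have := E1 1
  rw [E_2_1] at this
  norm_num at this
  exact this

theorem E_3_2 : E 3 2 = 11 := by
  have := E_rec 2 1 (by omega)
  rw [E_2_1, E_top 2] at this
  norm_num at this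
  exact this

theorem E_4_1 : E 4 1 = 26 := by
  have := E1 2
  rw [E_3_1] at this
  norm_num at this
  exact this

theorem E_4_2 : E 4 2 = 66 := by
  have := E_rec 3 1 (by omega)
  rw [E_3_1, E_3_2] at this
  norm_num at this
  exact this

theorem E_4_3 : E 4 3 = 26 := by
  have := E_rec 3 2 (by omega)
  rw [E_3_2, E_top 3] at this
  norm_num at this
  exact this

theorem E_5_1 : E 5 1 = 57 := by
  have := E1 3
  rw [E_4_1] at this
  norm_num at this
  exact this

theorem E_5_2 : E 5 2 = 302 := by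
  have := E_rec 4 1 (by omega)
  rw [E_4_1, E_4_2] at this
  norm_num at this
  exact this

theorem E_5_3 : E 5 3 = 302 := by
  have := E_rec 4 2 (by omega)
  rw [E_4_2, E_4_3] at this
  norm_num at this
  exact this

theorem E_5_4 : E 5 4 = 57 := by
  have := E_rec 4 3 (by omega)
  rw [E_4_3, E_top 4] at this
  norm_num at this
  exact this

theorem D_zero_zero : D 0 0 = 1 := by
  unfold D des
  simp

theorem D_0 (k : ℕ) : D 0 (k + 1) = 0 := D_big 0 (k + 1) (by omega)

theorem D_1_0 : D 1 0 = 1 := by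
  unfold D des
  decide

theorem D_1_1 : D 1 1 = -1 := by
  unfold D des
  decide

theorem D_2_0 : D 2 0 = 1 := by rw [D_rec_zero 0, D_zero_zero]
theorem D_2_1 : D 2 1 = 0 := by
  rw [D_rec_one 0, D_0 0]; simp
theorem D_2_2 : D 2 2 = -1 := by
  rw [D_rec 0 0, D_0 1, D_0 0, D_zero_zero]; simp
theorem D_3_0 : D 3 0 = 1 := by rw [D_rec_zero 1, D_1_0]
theorem D_3_1 : D 3 1 = -1 := by
  rw [D_rec_one 1, D_1_0, D_1_1]; norm_num
theorem D_3_2 : D 3 2 = -1 := by
  rw [D_rec 1 0, D_big 1 2 (by omega), D_1_0, D_1_1]; norm_num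
theorem D_3_3 : D 3 3 = 1 := by
  rw [D_rec 1 1, D_big 1 3 (by omega), D_big 1 2 (by omega), D_1_1]; norm_num
theorem D_4_1 : D 4 1 = 2 := by
  rw [D_rec_one 2, D_2_0, D_2_1]; norm_num
theorem D_4_2 : D 4 2 = -6 := by
  rw [D_rec 2 0, D_2_0, D_2_1, D_2_2]; norm_num
theorem D_4_3 : D 4 3 = 2 := by
  rw [D_rec 2 1, D_big 2 3 (by omega), D_2_1, D_2_2]; norm_num
theorem D_5_1 : D 5 1 = 1 := by
  rw [D_rec_one 3, D_3_0, D_3_1]; norm_num
theorem D_5_2 : D 5 2 = -8 := by
  rw [D_rec 3 0, D_3_0, D_3_1, D_3_2]; norm_num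
theorem D_5_3 : D 5 3 = 8 := by
  rw [D_rec 3 1, D_3_1, D_3_2, D_3_3]; norm_num
theorem D_5_4 : D 5 4 = -1 := by
  rw [D_rec 3 2, D_big 3 4 (by omega), D_3_2, D_3_3]; norm_num

theorem E_one_ge (n : ℕ) (hn : 4 ≤ n) : ((n : ℤ) + 1) ^ 2 ≤ E n 1 := by
  induction n, hn using Nat.le_induction with
  | base => rw [E_4_1]; norm_num
  | succ n hn ih =>
    obtain ⟨m, rfl⟩ : ∃ m, n = m + 1 := ⟨n - 1, by omega⟩
    rw [E1 m]
    push_cast at ih ⊢
    nlinarith

theorem Ep (n : ℕ) : E (n + 2) (n + 1) = 2 * E (n + 1) n + (n + 2) := by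
  have := E_rec (n + 1) n (by omega)
  rw [E_top] at this
  rw [this]
  push_cast
  ring

theorem E_pen_ge (n : ℕ) (hn : 4 ≤ n) : ((n : ℤ) + 1) ^ 2 ≤ E n (n - 1) := by
  induction n, hn using Nat.le_induction with
  | base =>
    have : 4 - 1 = 3 := rfl
    rw [this, E_4_3]; norm_num
  | succ n hn ih =>
    obtain ⟨m, rfl⟩ : ∃ m, n = m + 1 := ⟨n - 1, by omega⟩
    have h1 : m + 1 + 1 - 1 = m + 1 := by omega
    have h2 : m + 1 - 1 = m := by omega
    rw [h2] at ih
    rw [h1, Ep m]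
    push_cast at ih ⊢
    nlinarith

/-- the bound on the signed Eulerian numbers -/
def Bd (n : ℕ) : Prop := ∀ k : ℕ, 1 ≤ k → k + 1 ≤ n → ((n : ℤ) + 1) * |D n k| ≤ E n k

theorem Bd_2 : Bd 2 := by
  intro k h1 h2
  have : k = 1 := by omega
  subst this
  rw [D_2_1, E_2_1]; norm_num

theorem Bd_3 : Bd 3 := by
  intro k h1 h2
  have : k = 1 ∨ k = 2 := by omega
  rcases this with rfl | rfl
  · rw [D_3_1, E_3_1]; norm_num
  · rw [D_3_2, E_3_2]; norm_num

theorem Bd_4 : Bd 4 := by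
  intro k h1 h2
  have : k = 1 ∨ k = 2 ∨ k = 3 := by omega
  rcases this with rfl | rfl | rfl
  · rw [D_4_1, E_4_1]; norm_num
  · rw [D_4_2, E_4_2]; norm_num
  · rw [D_4_3, E_4_3]; norm_num

theorem Bd_5 : Bd 5 := by
  intro k h1 h2
  have : k = 1 ∨ k = 2 ∨ k = 3 ∨ k = 4 := by omega
  rcases this with rfl | rfl | rfl | rfl
  · rw [D_5_1, E_5_1]; norm_num
  · rw [D_5_2, E_5_2]; norm_num
  · rw [D_5_3, E_5_3]; norm_num
  · rw [D_5_4, E_5_4]; norm_num

theorem Bd_step (n : ℕ) (hn : 4 ≤ n) (ih : Bd n) : Bd (n + 2) := by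
  intro k h1 h2
  have hn4 : (4 : ℤ) ≤ n := by exact_mod_cast hn
  obtain rfl | hk : k = 1 ∨ 2 ≤ k := by omega
  · -- k = 1
    rw [D_rec_one, E_rec2_one]
    have hd := ih 1 le_rfl (by omega)
    have h0 : |D n 0| ≤ 1 := by
      have := D_le n 0
      rwa [E_zero] at this
    have hE := E_one_ge n hn
    have ha : |2 * D n 1 + (n : ℤ) * D n 0| ≤ 2 * |D n 1| + n := by
      refine (abs_add_le _ _).trans ?_
      rw [abs_mul, abs_mul, abs_of_nonneg (by linarith : (0 : ℤ) ≤ n)]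
      have : (n : ℤ) * |D n 0| ≤ n * 1 := mul_le_mul_of_nonneg_left h0 (by linarith)
      have h2 : |(2 : ℤ)| = 2 := by norm_num
      rw [h2]
      linarith
    have hnn := abs_nonneg (D n 1)
    push_cast
    have hpos : (0 : ℤ) < (n : ℤ) + 1 := by linarith
    apply le_of_mul_le_mul_left _ hpos
    calc ((n : ℤ) + 1) * (((n : ℤ) + 2 + 1) * |2 * D n 1 + (n : ℤ) * D n 0|)
        ≤ ((n : ℤ) + 1) * (((n : ℤ) + 2 + 1) * (2 * |D n 1| + n)) := by
          apply mul_le_mul_of_nonneg_left _ hpos.le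
          apply mul_le_mul_of_nonneg_left ha (by linarith)
      _ = 2 * ((n : ℤ) + 3) * (((n : ℤ) + 1) * |D n 1|) + n * ((n : ℤ) + 1) * ((n : ℤ) + 3) := by ring
      _ ≤ 2 * ((n : ℤ) + 3) * E n 1 + n * ((n : ℤ) + 1) * ((n : ℤ) + 3) := by
          have := mul_le_mul_of_nonneg_left hd (by linarith : (0 : ℤ) ≤ 2 * ((n : ℤ) + 3))
          linarith
      _ ≤ ((n : ℤ) + 1) * (4 * E n 1 + 3 * n + 4) := by
          have := mul_le_mul_of_nonneg_left hE (by linarith : (0 : ℤ) ≤ 2 * (n : ℤ) - 2)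
          nlinarith
  · obtain ⟨j, rfl⟩ : ∃ j, k = j + 2 := ⟨k - 2, by omega⟩
    have hj : j + 1 ≤ n := by omega
    have hjn : (j : ℤ) + 1 ≤ n := by exact_mod_cast hj
    have hj0 : (0 : ℤ) ≤ j := by positivity
    rw [D_rec, E_rec2 n j (by omega)]
    have n0 := abs_nonneg (D n j)
    have n1 := abs_nonneg (D n (j + 1))
    have n2 := abs_nonneg (D n (j + 2))
    have ha : |((j : ℤ) + 3) * D n (j + 2) + ((n : ℤ) - 2 * j - 2) * D n (j + 1) -
        ((n : ℤ) + 1 - j) * D n j| ≤ ((j : ℤ) + 3) * |D n (j + 2)| + n * |D n (j + 1)| +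
        ((n : ℤ) + 1 - j) * |D n j| := by
      refine (abs_sub _ _).trans ?_
      have a1 : |((j : ℤ) + 3) * D n (j + 2) + ((n : ℤ) - 2 * j - 2) * D n (j + 1)| ≤
          ((j : ℤ) + 3) * |D n (j + 2)| + n * |D n (j + 1)| := by
        refine (abs_add_le _ _).trans ?_
        rw [abs_mul, abs_mul, abs_of_nonneg (by linarith : (0 : ℤ) ≤ (j : ℤ) + 3)]
        have : |(n : ℤ) - 2 * j - 2| ≤ n := by
          rw [abs_le]; constructor <;> linarith
        have := mul_le_mul_of_nonneg_right this n1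
        linarith
      rw [abs_mul ((n : ℤ) + 1 - j), abs_of_nonneg (by linarith : (0 : ℤ) ≤ (n : ℤ) + 1 - j)]
      linarith
    have hpos : (0 : ℤ) < (n : ℤ) + 1 := by linarith
    -- the last term
    have t0 : ((n : ℤ) + 1) * ((n : ℤ) + 3) * (((n : ℤ) + 1 - j) * |D n j|) ≤
        ((n : ℤ) + 1) * (((n : ℤ) + 1 - j) ^ 2 * E n j) + (if j = 0 then 2 * ((n : ℤ) + 1) ^ 2 else 0) := by
      by_cases h : j = 0
      · subst h
        rw [if_pos rfl, E_zero]
        have h0 : |D n 0| ≤ 1 := by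
          have := D_le n 0
          rwa [E_zero] at this
        have : ((n : ℤ) + 1) * ((n : ℤ) + 3) * (((n : ℤ) + 1 - (0 : ℕ)) * |D n 0|) ≤
          ((n : ℤ) + 1) * ((n : ℤ) + 3) * (((n : ℤ) + 1 - (0 : ℕ)) * 1) := by
          apply mul_le_mul_of_nonneg_left _ (by nlinarith)
          apply mul_le_mul_of_nonneg_left h0
          push_cast; linarith
        refine this.trans ?_
        push_cast
        nlinarith
      · rw [if_neg h, add_zero]
        have hd := ih j (by omega) hj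
        have hE := E_nonneg n j
        have m1 : (((n : ℤ) + 3) * ((n : ℤ) + 1 - j)) * (((n : ℤ) + 1) * |D n j|) ≤
            (((n : ℤ) + 3) * ((n : ℤ) + 1 - j)) * E n j :=
          mul_le_mul_of_nonneg_left hd (mul_nonneg (by linarith) (by linarith))
        have m2 : (((n : ℤ) + 3) * ((n : ℤ) + 1 - j)) * E n j ≤
            (((n : ℤ) + 1) * ((n : ℤ) + 1 - j) ^ 2) * E n j := by
          apply mul_le_mul_of_nonneg_right _ hE
          have q : ((n : ℤ) + 3) ≤ ((n : ℤ) + 1) * ((n : ℤ) + 1 - j) := by nlinarith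
          have := mul_le_mul_of_nonneg_right q (by linarith : (0 : ℤ) ≤ (n : ℤ) + 1 - j)
          linarith
        linarith
    -- the first term
    have t2 : ((n : ℤ) + 1) * ((n : ℤ) + 3) * (((j : ℤ) + 3) * |D n (j + 2)|) ≤
        ((n : ℤ) + 1) * (((j : ℤ) + 3) ^ 2 * E n (j + 2)) +
          (if j + 2 = n then 2 * ((n : ℤ) + 1) ^ 2 else 0) := by
      by_cases h : j + 2 = n
      · rw [if_pos h, h, E_top]
        have h0 : |D n n| ≤ 1 := by
          have := D_le n n
          rwa [E_top] at this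
        have hjn' : (j : ℤ) = n - 2 := by
          have : (j : ℤ) + 2 = n := by exact_mod_cast h
          linarith
        rw [hjn']
        have : ((n : ℤ) + 1) * ((n : ℤ) + 3) * (((n : ℤ) - 2 + 3) * |D n n|) ≤
          ((n : ℤ) + 1) * ((n : ℤ) + 3) * (((n : ℤ) - 2 + 3) * 1) := by
          apply mul_le_mul_of_nonneg_left _ (by nlinarith)
          apply mul_le_mul_of_nonneg_left h0
          linarith
        refine this.trans ?_
        nlinarith
      · rw [if_neg h, add_zero]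
        by_cases h' : n < j + 2
        · rw [D_big n _ h', E_big n _ h']
          simp
        · have hd := ih (j + 2) (by omega) (by omega)
          have hE := E_nonneg n (j + 2)
          have m1 : (((n : ℤ) + 3) * ((j : ℤ) + 3)) * (((n : ℤ) + 1) * |D n (j + 2)|) ≤
              (((n : ℤ) + 3) * ((j : ℤ) + 3)) * E n (j + 2) :=
            mul_le_mul_of_nonneg_left hd (mul_nonneg (by linarith) (by linarith))
          have m2 : (((n : ℤ) + 3) * ((j : ℤ) + 3)) * E n (j + 2) ≤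
              (((n : ℤ) + 1) * ((j : ℤ) + 3) ^ 2) * E n (j + 2) := by
            apply mul_le_mul_of_nonneg_right _ hE
            have q : ((n : ℤ) + 3) ≤ ((n : ℤ) + 1) * ((j : ℤ) + 3) := by nlinarith
            have := mul_le_mul_of_nonneg_right q (by linarith : (0 : ℤ) ≤ (j : ℤ) + 3)
            linarith
          linarith
    -- the middle term, with its slack
    have t1 : ((n : ℤ) + 1) * ((n : ℤ) + 3) * ((n : ℤ) * |D n (j + 1)|) +
          ((if j = 0 then 2 * ((n : ℤ) + 1) ^ 2 else 0) +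
            (if j + 2 = n then 2 * ((n : ℤ) + 1) ^ 2 else 0)) ≤
        ((n : ℤ) + 1) * ((((j : ℤ) + 3) * ((n : ℤ) - j) + ((n : ℤ) + 1 - j) * ((j : ℤ) + 2)) *
          E n (j + 1)) ∨ j + 1 = n := by
      by_cases h : j + 1 = n
      · right; exact h
      · left
        have hd := ih (j + 1) (by omega) (by omega)
        have hE := E_pos n (j + 1) (by omega)
        have hjn2 : (j : ℤ) + 2 ≤ n := by exact_mod_cast (by omega : j + 2 ≤ n)
        have m1 : (((n : ℤ) + 3) * (n : ℤ)) * (((n : ℤ) + 1) * |D n (j + 1)|) ≤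
              (((n : ℤ) + 3) * (n : ℤ)) * E n (j + 1) :=
            mul_le_mul_of_nonneg_left hd (mul_nonneg (by linarith) (by linarith))
        have hc : 5 * (n : ℤ) + 2 ≤ ((j : ℤ) + 3) * ((n : ℤ) - j) + ((n : ℤ) + 1 - j) * ((j : ℤ) + 2) := by
          nlinarith [mul_nonneg hj0 (by linarith : (0 : ℤ) ≤ (n : ℤ) - j - 2)]
        have hS : (if j = 0 then 2 * ((n : ℤ) + 1) ^ 2 else 0) +
            (if j + 2 = n then 2 * ((n : ℤ) + 1) ^ 2 else 0) ≤ 2 * ((n : ℤ) + 1) ^ 2 := by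
          by_cases h3 : j = 0
          · rw [if_pos h3, if_neg (by omega)]; linarith
          · rw [if_neg h3, zero_add]
            split_ifs
            · exact le_rfl
            · positivity
        have m2 : (((n : ℤ) + 1) * (5 * (n : ℤ) + 2)) * E n (j + 1) ≤
          ((n : ℤ) + 1) * ((((j : ℤ) + 3) * ((n : ℤ) - j) + ((n : ℤ) + 1 - j) * ((j : ℤ) + 2)) *
          E n (j + 1)) := by
          rw [mul_assoc]
          apply mul_le_mul_of_nonneg_left _ hpos.le
          exact mul_le_mul_of_nonneg_right hc (by linarith)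
        have m3 : 2 * ((n : ℤ) + 1) ^ 2 * 1 ≤ (((n : ℤ) + 1) * (5 * (n : ℤ) + 2) - ((n : ℤ) + 3) * (n : ℤ)) *
            E n (j + 1) := by
          apply mul_le_mul _ hE (by norm_num) (by nlinarith)
          nlinarith
        nlinarith
    push_cast
    rcases t1 with t1 | hjn'
    · apply le_of_mul_le_mul_left _ hpos
      calc ((n : ℤ) + 1) * (((n : ℤ) + 2 + 1) * |((j : ℤ) + 3) * D n (j + 2) +
            ((n : ℤ) - 2 * j - 2) * D n (j + 1) - ((n : ℤ) + 1 - j) * D n j|)
          ≤ ((n : ℤ) + 1) * (((n : ℤ) + 2 + 1) * (((j : ℤ) + 3) * |D n (j + 2)| + n * |D n (j + 1)| +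
              ((n : ℤ) + 1 - j) * |D n j|)) := by
            apply mul_le_mul_of_nonneg_left _ hpos.le
            apply mul_le_mul_of_nonneg_left ha (by linarith)
        _ = ((n : ℤ) + 1) * ((n : ℤ) + 3) * (((j : ℤ) + 3) * |D n (j + 2)|) +
            ((n : ℤ) + 1) * ((n : ℤ) + 3) * ((n : ℤ) * |D n (j + 1)|) +
            ((n : ℤ) + 1) * ((n : ℤ) + 3) * (((n : ℤ) + 1 - j) * |D n j|) := by ring
        _ ≤ _ := by linarith
    · -- j + 1 = n
      subst hjn'
      push_cast at hn4 t0 t2 ha hpos ⊢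
      have hb : j + 1 < j + 2 := by omega
      rw [D_big (j + 1) (j + 2) hb, E_big (j + 1) (j + 2) hb, E_top] at *
      have h0 : |D (j + 1) (j + 1)| ≤ 1 := by
        have := D_le (j + 1) (j + 1)
        rwa [E_top] at this
      have hd := ih j (by omega) (by omega)
      push_cast at hd
      have hE := E_pen_ge (j + 1) hn
      have h3 : j + 1 - 1 = j := by omega
      rw [h3] at hE
      push_cast at hE
      have hnn := abs_nonneg (D (j + 1) j)
      apply le_of_mul_le_mul_left _ hpos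
      have ha' : |((j : ℤ) + 3) * 0 + ((j : ℤ) + 1 - 2 * j - 2) * D (j + 1) (j + 1) -
            ((j : ℤ) + 1 + 1 - j) * D (j + 1) j| ≤ ((j : ℤ) + 1) + 2 * |D (j + 1) j| := by
        refine ha.trans ?_
        have : ((j : ℤ) + 1) * |D (j + 1) (j + 1)| ≤ ((j : ℤ) + 1) * 1 :=
          mul_le_mul_of_nonneg_left h0 (by linarith)
        rw [abs_zero]
        linarith
      calc ((j : ℤ) + 1 + 1) * (((j : ℤ) + 1 + 2 + 1) * |((j : ℤ) + 3) * 0 +
            ((j : ℤ) + 1 - 2 * j - 2) * D (j + 1) (j + 1) - ((j : ℤ) + 1 + 1 - j) * D (j + 1) j|)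
          ≤ ((j : ℤ) + 1 + 1) * (((j : ℤ) + 1 + 2 + 1) * (((j : ℤ) + 1) + 2 * |D (j + 1) j|)) := by
            apply mul_le_mul_of_nonneg_left _ hpos.le
            apply mul_le_mul_of_nonneg_left ha' (by linarith)
        _ = 2 * ((j : ℤ) + 4) * (((j : ℤ) + 1 + 1) * |D (j + 1) j|) +
            ((j : ℤ) + 2) * ((j : ℤ) + 4) * ((j : ℤ) + 1) := by ring
        _ ≤ 2 * ((j : ℤ) + 4) * E (j + 1) j + ((j : ℤ) + 2) * ((j : ℤ) + 4) * ((j : ℤ) + 1) := by
            have := mul_le_mul_of_nonneg_left hd (by linarith : (0 : ℤ) ≤ 2 * ((j : ℤ) + 4))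
            linarith
        _ ≤ _ := by
            have := mul_le_mul_of_nonneg_left hE (by linarith : (0 : ℤ) ≤ 2 * (j : ℤ))
            nlinarith

theorem Bd_all (n : ℕ) (hn : 2 ≤ n) : Bd n := by
  induction n using Nat.strong_induction_on with
  | _ n ih =>
    by_cases h : n < 6
    · have : n = 2 ∨ n = 3 ∨ n = 4 ∨ n = 5 := by omega
      rcases this with rfl | rfl | rfl | rfl
      · exact Bd_2
      · exact Bd_3
      · exact Bd_4
      · exact Bd_5
    · obtain ⟨m, rfl⟩ : ∃ m, n = m + 2 := ⟨n - 2, by omega⟩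
      exact Bd_step m (by omega) (ih m (by omega) (by omega))

end Pool.Agent.R848.SD
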