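import Mathlib
import Pool.Agent.H24R3.EulRec
import Pool.Agent.R848.SD.Main

set_option autoImplicit false

/-!
The inequality of strong synchronisation in terms of the Eulerian numbers and their signed versions.
-/

namespace Pool.Agent.R848.SD

open Pool.Agent.H24R3.Eul Equiv Finset

theorem E_1_4 (n : ℕ) : 4 * E n 2 ≤ (E n 1) ^ 2 := by
  induction n with
  | zero => rw [E_big 0 2 (by omega), E_big 0 1 (by omega)]; norm_num
  | succ n ih =>
    by_cases hn : 1 ≤ n
    · obtain ⟨m, rfl⟩ : ∃ m, n = m + 1 := ⟨n - 1, by omega⟩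
      have h1 := E1 m
      have h2 := E_rec (m + 1) 1 (by omega)
      have e1 : m + 1 + 1 = m + 2 := rfl
      have e2 : 1 + 1 = 2 := rfl
      rw [e1, e2] at h2
      rw [h1, h2]
      push_cast at ih ⊢
      have hE := E_nonneg (m + 1) 1
      have hE2 := E_nonneg (m + 1) 2
      have hm : (0 : ℤ) ≤ m := by positivity
      nlinarith [mul_nonneg hm hE]
    · have : n = 0 := by omega
      subst this
      rw [E_big (0 + 1) 2 (by omega), E_one_one]; norm_num

theorem E_top_4 (n : ℕ) : 4 * E (n + 2) n ≤ (E (n + 2) (n + 1)) ^ 2 := by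
  induction n with
  | zero =>
    rw [E_zero]
    have : E (0 + 2) (0 + 1) = 4 := E_2_1
    rw [this]; norm_num
  | succ n ih =>
    have h1 := Ep (n + 1)
    have h2 := E_rec (n + 2) n (by omega)
    have e1 : n + 1 + 2 = n + 3 := rfl
    have e2 : n + 1 + 1 = n + 2 := rfl
    have e3 : n + 2 + 1 = n + 3 := rfl
    rw [e1, e2] at h1
    rw [e3] at h2
    rw [e1, e2, h1, h2]
    push_cast at ih ⊢
    have hE := E_nonneg (n + 2) (n + 1)
    have hE2 := E_nonneg (n + 2) n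
    have hm : (0 : ℤ) ≤ n := by positivity
    nlinarith [mul_nonneg hm hE]

/-- generic case -/
theorem gen (n : ℤ) (hn : 0 ≤ n) (a b c x y z : ℤ) (ha : 0 ≤ a) (hb : 0 ≤ b) (hc : 0 ≤ c)
    (hz : 0 ≤ z)
    (h1 : (n + 2) ^ 2 * (a * c) ≤ n ^ 2 * b ^ 2)
    (hx : (n + 1) * x ≤ a) (hy : (n + 1) * y ≤ b) (hz' : (n + 1) * z ≤ c) :
    (c + z) * (a + x) ≤ (b - y) ^ 2 := by
  have hpos : (0 : ℤ) < (n + 1) ^ 2 := by positivity
  apply le_of_mul_le_mul_left _ hpos
  have m1 : (n + 1) * (c + z) ≤ (n + 2) * c := by linarith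
  have m2 : (n + 1) * (a + x) ≤ (n + 2) * a := by linarith
  have m3 : n * b ≤ (n + 1) * (b - y) := by linarith
  have c0 : 0 ≤ (n + 1) * (c + z) := by positivity
  have nb : 0 ≤ n * b := mul_nonneg hn hb
  calc (n + 1) ^ 2 * ((c + z) * (a + x)) = ((n + 1) * (c + z)) * ((n + 1) * (a + x)) := by ring
    _ ≤ ((n + 1) * (c + z)) * ((n + 2) * a) := mul_le_mul_of_nonneg_left m2 c0
    _ ≤ ((n + 2) * c) * ((n + 2) * a) := mul_le_mul_of_nonneg_right m1 (by positivity)
    _ = (n + 2) ^ 2 * (a * c) := by ring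
    _ ≤ n ^ 2 * b ^ 2 := h1
    _ = (n * b) * (n * b) := by ring
    _ ≤ ((n + 1) * (b - y)) * ((n + 1) * (b - y)) := mul_self_le_mul_self nb m3
    _ = _ := by ring

/-- boundary case -/
theorem bdry (n : ℤ) (hn : 4 ≤ n) (b c x y z : ℤ) (hb : 0 ≤ b) (hc : 0 ≤ c)
    (hz : 0 ≤ z) (hx : x ≤ 1) (h4 : 4 * c ≤ b ^ 2)
    (hy : (n + 1) * y ≤ b) (hz' : (n + 1) * z ≤ c) :
    (c + z) * (1 + x) ≤ (b - y) ^ 2 := by
  have hpos : (0 : ℤ) < (n + 1) ^ 2 := by positivity
  apply le_of_mul_le_mul_left _ hpos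
  have m1 : (n + 1) * (c + z) ≤ (n + 2) * c := by linarith
  have m3 : n * b ≤ (n + 1) * (b - y) := by linarith
  have nb : 0 ≤ n * b := mul_nonneg (by linarith) hb
  calc (n + 1) ^ 2 * ((c + z) * (1 + x)) ≤ (n + 1) ^ 2 * ((c + z) * 2) := by
        apply mul_le_mul_of_nonneg_left _ hpos.le
        apply mul_le_mul_of_nonneg_left _ (by positivity)
        linarith
    _ = 2 * (n + 1) * ((n + 1) * (c + z)) := by ring
    _ ≤ 2 * (n + 1) * ((n + 2) * c) := mul_le_mul_of_nonneg_left m1 (by linarith)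
    _ = (2 * (n + 1) * (n + 2)) * c := by ring
    _ ≤ (4 * n ^ 2) * c := by
        apply mul_le_mul_of_nonneg_right _ hc
        nlinarith
    _ = n ^ 2 * (4 * c) := by ring
    _ ≤ n ^ 2 * b ^ 2 := mul_le_mul_of_nonneg_left h4 (by positivity)
    _ = (n * b) * (n * b) := by ring
    _ ≤ ((n + 1) * (b - y)) * ((n + 1) * (b - y)) := mul_self_le_mul_self nb m3
    _ = _ := by ring

theorem main (n k : ℕ) (hk : k + 2 ≤ n) :
    (E n (k + 2) + |D n (k + 2)|) * (E n k + |D n k|) ≤ (E n (k + 1) - |D n (k + 1)|) ^ 2 := by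
  by_cases h4 : n < 4
  · have : n = 2 ∧ k = 0 ∨ n = 3 ∧ k = 0 ∨ n = 3 ∧ k = 1 := by omega
    rcases this with ⟨rfl, rfl⟩ | ⟨rfl, rfl⟩ | ⟨rfl, rfl⟩
    · simp only [zero_add]
      rw [E_top, D_2_2, E_zero, D_2_0, E_2_1, D_2_1]; norm_num
    · simp only [zero_add]
      rw [E_3_2, D_3_2, E_zero, D_3_0, E_3_1, D_3_1]; norm_num
    · have e1 : 1 + 2 = 3 := rfl
      have e2 : 1 + 1 = 2 := rfl
      rw [e1, e2, E_top, D_3_3, E_3_1, D_3_1, E_3_2, D_3_2]; norm_num
  · push Not at h4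
    have hB := Bd_all n (by omega)
    have hn4 : (4 : ℤ) ≤ n := by exact_mod_cast h4
    have hy := hB (k + 1) (by omega) (by omega)
    by_cases h0 : k = 0
    · subst h0
      rw [E_zero]
      have hx : |D n 0| ≤ 1 := by
        have := D_le n 0
        rwa [E_zero] at this
      exact bdry n hn4 _ _ _ _ _ (E_nonneg n _) (E_nonneg n _) (abs_nonneg _) hx (E_1_4 n) hy
        (hB 2 (by omega) (by omega))
    · by_cases h1 : k + 2 = n
      · subst h1
        rw [E_top, mul_comm]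
        have hx : |D (k + 2) (k + 2)| ≤ 1 := by
          have := D_le (k + 2) (k + 2)
          rwa [E_top] at this
        exact bdry _ hn4 _ _ _ _ _ (E_nonneg _ _) (E_nonneg _ _) (abs_nonneg _) hx (E_top_4 k) hy
          (hB k (by omega) (by omega))
      · exact gen n (by linarith) _ _ _ _ _ _ (E_nonneg _ _) (E_nonneg _ _) (E_nonneg _ _)
          (abs_nonneg _) (E_strong n k hk) (hB k (by omega) (by omega)) hy
          (hB (k + 2) (by omega) (by omega))

end Pool.Agent.R848.SD
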